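import Pool.Agent.N64.AF.L1
import Pool.Agent.N64.AF.M1

/-!
# Rational K-groups of the powers of a variety over a finite field

`C` is a rigid symmetric monoidal category with a realisation `R` (Chow motives over the field with `q`
elements with correspondences of all codimensions, `ℓ`-adic cohomology), `T` the motive of a smooth
projective variety `X`, `tp T n` the motive of `X ^ n`.
-/

set_option autoImplicit false

open CategoryTheory Limits MonoidalCategory Module Filter Topology Polynomial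
open Pool.Agent.Y112.SR Pool.Agent.Y112.KD Pool.Agent.N64.AF
open scoped ENNReal

namespace Pool.Agent.K6.H7.AJ

universe v u w x y

/-- The value of the polynomial `P` at the endomorphism `f`. -/
noncomputable def pol {C : Type u} [Category.{v} C] [Preadditive C] [Linear ℚ C] {Z : C} (f : Z ⟶ Z)
    (P : ℚ[X]) : Z ⟶ Z :=
  aeval (R := ℚ) (A := End Z) f P

section Defs

variable {C : Type u} [Category.{v} C] [Preadditive C] [MonoidalCategory C]
  [MonoidalPreadditive C] [SymmetricCategory C] [RightRigidCategory C] [Linear ℚ C]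
  {K : Type w} [Field K]

/-- The rational `K`-groups `K_s(-)_ℚ` in one degree `s ≥ 1`, as an additive functor on the motives over
the field with `q` elements, with the Frobenius endomorphisms of the powers of `X`.

* `point`: the group of the base field is torsion (Quillen);
* `Φ n` is the Frobenius endomorphism of `X ^ n`, `P n` its characteristic polynomial in cohomology, so
  that `P n (Φ n)` is homologically trivial (`root`);
* `W n w` is the part of weight `w` of the `K`-group of `X ^ n` (the higher Chow group of cycles of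
  dimension `w`, with rational coefficients); the `K`-group is the sum of these parts (`span`), the
  Frobenius endomorphism acts on it by `q ^ w` (`scalar`);
* `dim n` is the dimension of `X ^ n`. By the Riemann hypothesis `q ^ w` is not a root of `P n` if
  `w < 0` or `w > dim n` (`nonroot`). -/
structure KGroups (R : SuperRealisation C K) (T : C) (q : ℕ) where
  F : C ⥤ ModuleCat.{x} ℚ
  [additive : F.Additive]
  [linear : F.Linear ℚ]
  point : Subsingleton (F.obj (𝟙_ C))
  Φ : ∀ n : ℕ, tp T n ⟶ tp T n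
  P : ℕ → ℚ[X]
  root : ∀ n, R.H.map (pol (Φ n) (P n)) = 0
  dim : ℕ → ℤ
  nonroot : ∀ (n : ℕ) (w : ℤ), w < 0 ∨ dim n < w → (P n).eval ((q : ℚ) ^ w) ≠ 0
  W : ∀ n : ℕ, ℤ → Submodule ℚ (F.obj (tp T n))
  span : ∀ n, ⨆ w, W n w = ⊤
  scalar : ∀ (n : ℕ) (w : ℤ) (a : F.obj (tp T n)), a ∈ W n w →
    (F.map (Φ n)).hom a = (q : ℚ) ^ w • a

attribute [instance] KGroups.additive KGroups.linear

variable {R : SuperRealisation C K} {T : C} {q : ℕ}

/-- The groups `E n w`, for `w < 0`, are the groups `H^i` of the cycle complex `ℤ^c(w)` on the étale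
site of `X ^ n`, in the degree `i = -2 w - s`: their torsion subgroups are finite, and modulo torsion
they are contained in the part of weight `w` of the rational `K`-group. -/
structure IsEtale (κ : KGroups.{v, u, w, x} R T q) (E : ℕ → ℤ → Type y)
    [∀ n w, AddCommGroup (E n w)] : Prop where
  torsion : ∀ n w, w < 0 → Finite (AddCommGroup.torsion (E n w))
  rational : ∀ n w, w < 0 → ∃ f : E n w →+ κ.F.obj (tp T n),
    (∀ a, f a ∈ κ.W n w) ∧ ∀ a, f a = 0 → a ∈ AddCommGroup.torsion (E n w)

/-- The Tate conjecture for the powers of `X`, with the semisimplicity of the Frobenius endomorphism at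
the eigenvalues `q ^ w`: up to a numerically trivial correspondence the identity of `X ^ n` is the sum of
products of cycles and of a polynomial in the Frobenius endomorphism which is zero at all `q ^ w`,
`0 ≤ w ≤ dim n`. -/
def Tate (κ : KGroups.{v, u, w, x} R T q) : Prop :=
  ∀ n, ∃ (m : ℕ) (a : Fin m → (tp T n ⟶ 𝟙_ C)) (b : Fin m → (𝟙_ C ⟶ tp T n)) (Q : ℚ[X]),
    (∀ w : ℤ, 0 ≤ w → w ≤ κ.dim n → Q.eval ((q : ℚ) ^ w) = 0) ∧
      NumTriv (𝟙 (tp T n) - (∑ i, a i ≫ b i) - pol (κ.Φ n) Q)

end Defs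

section Act

variable {C : Type u} [Category.{v} C] [Preadditive C] [Linear ℚ C]

/-- The action of the endomorphisms on the value of a functor. -/
noncomputable def actA (F : C ⥤ ModuleCat.{x} ℚ) [F.Additive] [F.Linear ℚ] (Z : C) :
    End Z →ₐ[ℚ] Module.End ℚ (F.obj Z) :=
  AlgHom.ofLinearMap
    { toFun := fun f => (F.map (f : Z ⟶ Z)).hom
      map_add' := fun f g => by rw [F.map_add]; rfl
      map_smul' := fun c f => by rw [F.map_smul]; rfl }
    (by
      change (F.map (𝟙 Z)).hom = _
      rw [F.map_id]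
      rfl)
    (fun f g => by
      change (F.map (g ≫ f)).hom = _
      rw [F.map_comp]
      rfl)

lemma actA_apply (F : C ⥤ ModuleCat.{x} ℚ) [F.Additive] [F.Linear ℚ] (Z : C) (f : End Z) :
    actA F Z f = (F.map (f : Z ⟶ Z)).hom := rfl

lemma pol_apply (F : C ⥤ ModuleCat.{x} ℚ) [F.Additive] [F.Linear ℚ] {Z : C} (f : Z ⟶ Z)
    (P : ℚ[X]) {μ : ℚ} {a : F.obj Z} (ha : (F.map f).hom a = μ • a) :
    (F.map (pol f P)).hom a = P.eval μ • a := by
  by_cases h0 : a = 0
  · rw [h0, map_zero, smul_zero]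
  · have h1 : Module.End.HasEigenvector (actA F Z f) μ a :=
      ⟨Module.End.mem_eigenspace_iff.2 ha, h0⟩
    have h2 := Module.End.aeval_apply_of_hasEigenvector (p := P) h1
    rw [Polynomial.aeval_algHom_apply] at h2
    exact h2

lemma eq_zero_of_nil {V : Type x} [AddCommGroup V] [Module ℚ V] {y : Module.End ℚ V}
    (hy : IsNilpotent y) {μ : ℚ} (hμ : μ ≠ 0) {a : V} (ha : y a = μ • a) : a = 0 := by
  obtain ⟨k, hk⟩ := hy
  have h1 : ∀ j : ℕ, (y ^ j) a = μ ^ j • a := by
    intro j
    induction j with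
    | zero => rw [pow_zero, pow_zero, one_smul, Module.End.one_apply]
    | succ j ih => rw [pow_succ', Module.End.mul_apply, ih, map_smul, ha, smul_smul, pow_succ]
  have h2 := h1 k
  rw [hk, LinearMap.zero_apply] at h2
  exact (smul_eq_zero.1 h2.symm).resolve_left (pow_ne_zero k hμ)

end Act

/-- **The law of the rational `K`-groups.** -/
theorem k_law {C : Type u} [Category.{v} C] [Preadditive C] [MonoidalCategory C]
    [MonoidalPreadditive C] [SymmetricCategory C] [RightRigidCategory C]
    [Linear ℚ C] [MonoidalLinear ℚ C]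
    {K : Type w} [Field K] [IsAlgClosed K] [Algebra ℚ K] {R : SuperRealisation C K}
    {T : C} [ExactPairing T T] (h : IsPow ℚ R T) {q : ℕ} (κ : KGroups.{v, u, w, x} R T q)
    (E : ℕ → ℤ → Type y) [∀ n w, AddCommGroup (E n w)] (hE : IsEtale κ E) :
    ∃ N : ℕ∞,
      RatioTo ℚ T (fun n => dimE ℚ (κ.F.obj (tp T n))) N ∧
      (N = 0 ↔ ∀ n, Subsingleton (κ.F.obj (tp T n))) ∧
      (∀ c : ℕ, (∃ᶠ n in atTop, dimE ℚ (κ.F.obj (tp T n)) ≤ c * numRank ℚ (tp T n)) → N ≤ c) ∧
      (∀ m n : ℕ, 128 * (m + 1) ^ 2 * bt R T ^ (2 * m + 6) ≤ n →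
        2 * dimE ℚ (κ.F.obj (tp T n)) < numRank ℚ (tp T n) → Subsingleton (κ.F.obj (tp T m))) ∧
      (N ≠ ⊤ → ∀ n w, w < 0 → κ.W n w = ⊥ ∧ Finite (E n w)) ∧
      (Tate κ → N = 0 ∨ N = ⊤) := by
  obtain ⟨N, h1, h2, h3⟩ := law h κ.F
  have hnil : N ≠ ⊤ → ∀ (n : ℕ) (y : tp T n ⟶ tp T n), NumTriv y →
      IsNilpotent ((κ.F.map y).hom : Module.End ℚ (κ.F.obj (tp T n))) := fun hN n y hy =>
    ((h3 hN).1 n).2.2 y hy
  have hW : N ≠ ⊤ → ∀ (n : ℕ) (w : ℤ), w < 0 ∨ κ.dim n < w → ∀ a ∈ κ.W n w, a = 0 := by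
    intro hN n w hw a ha
    have h4 := hnil hN n _ (numTriv_of_map h.real (κ.root n))
    exact eq_zero_of_nil h4 (κ.nonroot n w hw) (pol_apply κ.F _ _ (κ.scalar n w a ha))
  refine ⟨N, h1, h2, ?_, ?_, ?_, ?_⟩
  · -- the bound
    intro c hc
    have h3 : ((N : ℕ∞) : ℝ≥0∞) ≤ ((c : ℕ) : ℝ≥0∞) := by
      refine le_of_tendsto_of_frequently h1 ?_
      refine hc.mono fun n hn => ?_
      have h4 : (numRank ℚ (tp T n) : ℝ≥0∞) ≠ 0 := by
        exact_mod_cast (numRank_mono h n).1.ne'
      rw [ENNReal.div_le_iff h4 (ENNReal.natCast_ne_top _)]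
      have h5 : ((dimE ℚ (κ.F.obj (tp T n)) : ℕ∞) : ℝ≥0∞) ≤
          (((c * numRank ℚ (tp T n) : ℕ) : ℕ∞) : ℝ≥0∞) := by
        have h6 : dimE ℚ (κ.F.obj (tp T n)) ≤ ((c * numRank ℚ (tp T n) : ℕ) : ℕ∞) := by
          exact_mod_cast hn
        exact_mod_cast h6
      refine h5.trans (le_of_eq ?_)
      norm_cast
    exact_mod_cast h3
  · -- the explicit criterion
    intro m n hmn h3
    obtain ⟨h4, h5⟩ := dimE_lt h3
    exact explicit_criterion h κ.F hmn h4 h5
  · -- negative weights
    intro hN n w hw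
    obtain ⟨f, hf, hf'⟩ := hE.rational n w hw
    have := hE.torsion n w hw
    have h4 : ∀ a : E n w, a ∈ AddCommGroup.torsion (E n w) := fun a =>
      hf' a (hW hN n w (Or.inl hw) _ (hf a))
    exact ⟨(Submodule.eq_bot_iff _).2 (hW hN n w (Or.inl hw)),
      Finite.of_injective (fun a : E n w => (⟨a, h4 a⟩ : AddCommGroup.torsion (E n w)))
        fun a b hab => congrArg Subtype.val hab⟩
  · -- the zero-infinity law
    intro hT
    by_cases hN : N = ⊤
    · exact Or.inr hN
    · refine Or.inl (h2.2 fun n => ?_)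
      obtain ⟨m, a, b, Q, hQ, hnum⟩ := hT n
      have h4 : ∀ w : ℤ, κ.W n w = ⊥ := by
        intro w
        rw [eq_bot_iff]
        intro z hz
        by_cases hw : 0 ≤ w ∧ w ≤ κ.dim n
        · have h5 := hnil hN n _ hnum
          have h6 : (κ.F.map (∑ i, a i ≫ b i)).hom z = 0 := by
            rw [κ.F.map_sum, ModuleCat.hom_sum, LinearMap.sum_apply]
            refine Finset.sum_eq_zero fun i _ => ?_
            rw [κ.F.map_comp, ModuleCat.hom_comp, LinearMap.comp_apply]
            have := κ.point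
            rw [Subsingleton.elim ((κ.F.map (a i)).hom z) 0, map_zero]
          have h7 := pol_apply κ.F (κ.Φ n) Q (κ.scalar n w z hz)
          rw [hQ w hw.1 hw.2, zero_smul] at h7
          have h8 : (κ.F.map (𝟙 (tp T n) - (∑ i, a i ≫ b i) - pol (κ.Φ n) Q)).hom z =
              (1 : ℚ) • z := by
            rw [κ.F.map_sub, κ.F.map_sub, κ.F.map_id, ModuleCat.hom_sub, ModuleCat.hom_sub,
              LinearMap.sub_apply, LinearMap.sub_apply, h6, h7, sub_zero, sub_zero, one_smul]
            rfl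
          exact eq_zero_of_nil h5 one_ne_zero h8
        · refine hW hN n w ?_ z hz
          by_cases h0 : 0 ≤ w
          · exact Or.inr (not_le.1 fun h9 => hw ⟨h0, h9⟩)
          · exact Or.inl (not_le.1 h0)
      have h5 := κ.span n
      simp only [h4, iSup_bot] at h5
      exact (Submodule.subsingleton_iff ℚ).1 (subsingleton_of_bot_eq_top h5)

end Pool.Agent.K6.H7.AJ
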