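import Pool.Agent.N64.AF.L1
import Pool.Agent.N64.AF.M1

/-!
# The kernel of the Abel-Jacobi map on the powers of a variety

`C` is a rigid symmetric monoidal category with a realisation `R` (Chow motives with correspondences of
all codimensions and singular cohomology), `D` an additive functor on `C` with an element `e` of its value
at the unit object (Deligne cohomology and the class `1` of the point), so that `D.map α` applied to `e`
is the class of the cycle `α`, a morphism from the unit object.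
-/

set_option autoImplicit false

open CategoryTheory Limits MonoidalCategory Module Filter Topology
open Pool.Agent.Y112.SR Pool.Agent.Y112.KD Pool.Agent.N64.AF
open scoped ENNReal

namespace Pool.Agent.K6.H7.AJ

universe v u w x

section Defs

variable {C : Type u} [Category.{v} C] [Preadditive C] [MonoidalCategory C]
  [MonoidalPreadditive C] [SymmetricCategory C] [RightRigidCategory C]
  {K : Type w} [Field K]

/-- The morphism `f` between tensor powers of `T` is a composition `y₁ ≫ ⋯ ≫ y_k ≫ g` of `k` morphisms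
between tensor powers of `T` with trivial realisation and of a morphism `g`. -/
def HomPow (R : SuperRealisation C K) (T : C) : ℕ → ∀ {a b : ℕ}, (tp T a ⟶ tp T b) → Prop
  | 0, _, _, _ => True
  | k + 1, a, b, f => ∃ (c : ℕ) (y : tp T a ⟶ tp T c) (g : tp T c ⟶ tp T b),
      R.H.map y = 0 ∧ HomPow R T k g ∧ f = y ≫ g

variable [Linear ℚ C]

/-- The cycles `α` on `Z` (morphisms from the unit object to `Z`) with trivial class `D.map α` applied
to `e`. -/
def clKer (D : C ⥤ ModuleCat.{x} ℚ) [D.Additive] [D.Linear ℚ] (e : D.obj (𝟙_ C)) (Z : C) :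
    Submodule ℚ (𝟙_ C ⟶ Z) where
  carrier := {α | (D.map α).hom e = 0}
  zero_mem' := by
    change (D.map (0 : 𝟙_ C ⟶ Z)).hom e = 0
    rw [D.map_zero]
    rfl
  add_mem' := fun {a b} ha hb => by
    change (D.map (a + b)).hom e = 0
    have h1 : (D.map a).hom e = 0 := ha
    have h2 : (D.map b).hom e = 0 := hb
    rw [D.map_add, ModuleCat.hom_add, LinearMap.add_apply, h1, h2, add_zero]
  smul_mem' := fun c a ha => by
    change (D.map (c • a)).hom e = 0
    have h1 : (D.map a).hom e = 0 := ha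
    rw [D.map_smul, ModuleCat.hom_smul, LinearMap.smul_apply, h1, smul_zero]

/-- The properties of Deligne cohomology which are used: a cycle with trivial class has trivial class
in singular cohomology; and homologically trivial correspondences map homologically trivial cycles
to cycles with trivial class (the product of two classes of the intermediate Jacobians is zero). -/
structure IsDeligne (R : SuperRealisation C K) (D : C ⥤ ModuleCat.{x} ℚ) (e : D.obj (𝟙_ C)) :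
    Prop where
  betti : ∀ ⦃Z : C⦄ (α : 𝟙_ C ⟶ Z), (D.map α).hom e = 0 → R.H.map α = 0
  square : ∀ ⦃Y Z : C⦄ (α : 𝟙_ C ⟶ Y) (f : Y ⟶ Z), R.H.map α = 0 → R.H.map f = 0 →
    (D.map (α ≫ f)).hom e = 0

/-- The Abel-Jacobi map of `Z` is injective: it is the restriction of the class to the homologically
trivial cycles. -/
def AJInjective (R : SuperRealisation C K) (D : C ⥤ ModuleCat.{x} ℚ) (e : D.obj (𝟙_ C)) (Z : C) :
    Prop :=
  ∀ α : 𝟙_ C ⟶ Z, R.H.map α = 0 → (D.map α).hom e = 0 → α = 0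

end Defs

section Pow

variable {C : Type u} [Category.{v} C] [Preadditive C] [MonoidalCategory C]
  [MonoidalPreadditive C] [SymmetricCategory C] [RightRigidCategory C]
  [Linear ℚ C] [MonoidalLinear ℚ C]
  {K : Type w} [Field K] [IsAlgClosed K] [Algebra ℚ K] {R : SuperRealisation C K} {T : C}

omit [MonoidalPreadditive C] [MonoidalLinear ℚ C] [Linear ℚ C] [IsAlgClosed K] [Algebra ℚ K] in
lemma homPow_comp (k : ℕ) {a b c : ℕ} (g : tp T c ⟶ tp T a) {f : tp T a ⟶ tp T b}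
    (hf : HomPow R T k f) : HomPow R T k (g ≫ f) := by
  cases k with
  | zero => trivial
  | succ k =>
    obtain ⟨d, y, h, hy, hh, rfl⟩ := hf
    refine ⟨d, g ≫ y, h, ?_, hh, (Category.assoc _ _ _).symm⟩
    rw [R.H.map_comp, hy, comp_zero]

omit [MonoidalPreadditive C] [MonoidalLinear ℚ C] [Linear ℚ C] [IsAlgClosed K] [Algebra ℚ K] in
lemma map_whisker {Y Z : C} {y : Y ⟶ Z} (hy : R.H.map y = 0) (Q : C) : R.H.map (y ▷ Q) = 0 := by
  rw [Functor.Monoidal.map_whiskerRight, hy, MonoidalPreadditive.zero_whiskerRight, zero_comp,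
    comp_zero]

omit [MonoidalPreadditive C] [MonoidalLinear ℚ C] [Linear ℚ C] [IsAlgClosed K] [Algebra ℚ K] in
lemma homPow_whisker (k : ℕ) : ∀ {a b : ℕ} {f : tp T a ⟶ tp T b}, HomPow R T k f →
    HomPow R T k (a := a + 1) (b := b + 1) (f ▷ T) := by
  induction k with
  | zero => intro a b f _; trivial
  | succ k ih =>
    rintro a b f ⟨c, y, g, hy, hg, rfl⟩
    exact ⟨c + 1, y ▷ T, g ▷ T, map_whisker hy T, ih hg, comp_whiskerRight _ _ _⟩

lemma numPow_cons (hR : IsReal ℚ R) (k : ℕ) : ∀ {a c b : ℕ} {y : tp T a ⟶ tp T c}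
    {g : tp T c ⟶ tp T b}, NumTriv y → NumPow T k g → NumPow T (k + 1) (y ≫ g) := by
  induction k with
  | zero =>
    intro a c b y g hy _
    refine ⟨a, 𝟙 _, y ≫ g, trivial, ?_, (Category.id_comp _).symm⟩
    have h1 := NumTriv.comp hR hy (𝟙 _) g
    rwa [Category.id_comp] at h1
  | succ k ih =>
    rintro a c b y g hy ⟨d, g₀, y₀, hg, hy₀, rfl⟩
    exact ⟨d, y ≫ g₀, y₀, ih hy hg, hy₀, (Category.assoc _ _ _).symm⟩

lemma numPow_of_homPow (hR : IsReal ℚ R) (k : ℕ) : ∀ {a b : ℕ} {f : tp T a ⟶ tp T b},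
    HomPow R T k f → NumPow T k f := by
  induction k with
  | zero => intro a b f _; trivial
  | succ k ih =>
    rintro a b f ⟨c, y, g, hy, hg, rfl⟩
    exact numPow_cons hR k (numTriv_of_map hR hy) (ih hg)

open Pool.Agent.N645.AFK1 in
lemma homPow_vanish [ExactPairing T T] {k : ℕ}
    (h0 : ∀ (b : ℕ) (f : tp T 0 ⟶ tp T b), HomPow R T k f → f = 0) (a : ℕ) :
    ∀ (b : ℕ) (f : tp T a ⟶ tp T b), HomPow R T k f → f = 0 := by
  induction a with
  | zero => exact h0
  | succ a ih =>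
    intro b f hf
    have h1 : cur ℚ T (tp T a) (tp T b) f = 0 := by
      apply ih (b + 1)
      rw [cur_eq]
      exact homPow_comp (c := a) (a := a + 2) (b := b + 1) k _ (homPow_whisker (a := a + 1) k hf)
    exact (LinearEquiv.map_eq_zero_iff _).1 h1

lemma homPow_pow {n : ℕ} (y : End (tp T n)) (hy : R.H.map (y : tp T n ⟶ tp T n) = 0) (k : ℕ) :
    HomPow R T k ((y ^ k : End (tp T n)) : tp T n ⟶ tp T n) := by
  induction k with
  | zero => trivial
  | succ k ih =>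
    refine ⟨n, (y : tp T n ⟶ tp T n), ((y ^ k : End (tp T n)) : tp T n ⟶ tp T n), hy, ih, ?_⟩
    rw [pow_succ, End.mul_def]

end Pow

section Two

variable {C : Type u} [Category.{v} C] [Preadditive C] [MonoidalCategory C]
  [MonoidalPreadditive C] [SymmetricCategory C] [RightRigidCategory C]
  [Linear ℚ C] [MonoidalLinear ℚ C]
  {K : Type w} [Field K] {R : SuperRealisation C K}

omit [MonoidalPreadditive C] [MonoidalLinear ℚ C] [Linear ℚ C] in
lemma map_whiskerLeft' {Y Z : C} {y : Y ⟶ Z} (hy : R.H.map y = 0) (Q : C) :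
    R.H.map (Q ◁ y) = 0 := by
  rw [Functor.Monoidal.map_whiskerLeft, hy, MonoidalPreadditive.whiskerLeft_zero, zero_comp,
    comp_zero]

omit [MonoidalPreadditive C] [MonoidalLinear ℚ C] [Linear ℚ C] [RightRigidCategory C]
  [SymmetricCategory C] in
lemma eq_zero_of_retract [MonoidalPreadditive C] {Y S : C} {i : 𝟙_ C ⟶ Y} {r : Y ⟶ 𝟙_ C}
    (hir : i ≫ r = 𝟙 (𝟙_ C)) {f : 𝟙_ C ⟶ S} (hf : (i ≫ (ρ_ Y).inv) ≫ (Y ◁ f) = 0) : f = 0 := by
  have h1 : ((i ≫ (ρ_ Y).inv) ≫ (Y ◁ f)) ≫ (r ▷ S) ≫ (λ_ S).hom = f := by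
    rw [Category.assoc, whisker_exchange_assoc, leftUnitor_naturality, Category.assoc,
      ← rightUnitor_inv_naturality_assoc, ← Category.assoc i, hir, Category.id_comp,
      ← unitors_inv_equal, Iso.inv_hom_id_assoc]
  rw [← h1, hf, zero_comp]

end Two

/-- **The law of the kernels of the Abel-Jacobi maps.** -/
theorem aj_law {C : Type u} [Category.{v} C] [Preadditive C] [MonoidalCategory C]
    [MonoidalPreadditive C] [SymmetricCategory C] [RightRigidCategory C]
    [Linear ℚ C] [MonoidalLinear ℚ C] [IsIdempotentComplete C]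
    {K : Type w} [Field K] [IsAlgClosed K] [Algebra ℚ K] {R : SuperRealisation C K}
    (D : C ⥤ ModuleCat.{x} ℚ) [D.Additive] [D.Linear ℚ] (e : D.obj (𝟙_ C)) (hD : IsDeligne R D e)
    {T : C} [ExactPairing T T] (h : IsPow ℚ R T) (Y : C)
    (hY : ∃ (i : 𝟙_ C ⟶ Y) (r : Y ⟶ 𝟙_ C), i ≫ r = 𝟙 (𝟙_ C)) :
    ∃ N : ℕ∞,
      RatioTo ℚ T (fun n => dimE ℚ (clKer D e (Y ⊗ tp T n))) N ∧
      (N = 0 ↔ ∀ n, AJInjective R D e (Y ⊗ tp T n)) ∧
      (∀ c : ℕ, (∃ᶠ n in atTop, dimE ℚ (clKer D e (Y ⊗ tp T n)) ≤ c * numRank ℚ (tp T n)) →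
        N ≤ c) ∧
      (∀ m n : ℕ, 128 * (m + 1) ^ 2 * bt R T ^ (2 * m + 6) ≤ n →
        2 * dimE ℚ (clKer D e (Y ⊗ tp T n)) < numRank ℚ (tp T n) →
          AJInjective R D e (Y ⊗ tp T m)) ∧
      ∀ k : ℕ, N = k → (∀ n, Module.Finite ℚ (clKer D e (Y ⊗ tp T n))) ∧
        (∀ (a b : ℕ) (f : tp T a ⟶ tp T b), HomPow R T (k + 2) f → f = 0) ∧
        Pool.Agent.R905.IsKimuraFinite T := by
  have hst : IsStab (tensorLeft Y ⋙ homF ℚ (𝟙_ C)) (fun Z => clKer D e (Y ⊗ Z)) := by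
    intro Z Z' f α hα
    have h1 : (D.map α).hom e = 0 := hα
    change (D.map (α ≫ (Y ◁ f))).hom e = 0
    rw [D.map_comp, ModuleCat.hom_comp, LinearMap.comp_apply, h1, map_zero]
  have hinj : ∀ n, (Subsingleton ((sub (tensorLeft Y ⋙ homF ℚ (𝟙_ C)) _ hst).obj (tp T n)) ↔
      AJInjective R D e (Y ⊗ tp T n)) := by
    intro n
    constructor
    · intro h1 α hα hα'
      have h2 : (⟨α, hα'⟩ : clKer D e (Y ⊗ tp T n)) = 0 := @Subsingleton.elim _ h1 _ _
      exact congrArg Subtype.val h2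
    · intro h1
      refine ⟨fun a b => ?_⟩
      have h2 : ∀ c : clKer D e (Y ⊗ tp T n), c = 0 := fun c =>
        Subtype.ext (h1 c.1 (hD.betti c.1 c.2) c.2)
      exact (h2 a).trans (h2 b).symm
  obtain ⟨N, h1, h2, -⟩ := law h (sub (tensorLeft Y ⋙ homF ℚ (𝟙_ C)) _ hst)
  refine ⟨N, h1, h2.trans (forall_congr' hinj), ?_, ?_, ?_⟩
  · -- the bound
    intro c hc
    have h3 : ((N : ℕ∞) : ℝ≥0∞) ≤ ((c : ℕ) : ℝ≥0∞) := by
      refine le_of_tendsto_of_frequently h1 ?_
      refine hc.mono fun n hn => ?_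
      have h4 : (numRank ℚ (tp T n) : ℝ≥0∞) ≠ 0 := by
        exact_mod_cast (numRank_mono h n).1.ne'
      rw [ENNReal.div_le_iff h4 (ENNReal.natCast_ne_top _)]
      have h5 : ((dimE ℚ (clKer D e (Y ⊗ tp T n)) : ℕ∞) : ℝ≥0∞) ≤
          (((c * numRank ℚ (tp T n) : ℕ) : ℕ∞) : ℝ≥0∞) := by
        have h6 : dimE ℚ (clKer D e (Y ⊗ tp T n)) ≤ ((c * numRank ℚ (tp T n) : ℕ) : ℕ∞) := by
          exact_mod_cast hn
        exact_mod_cast h6
      refine h5.trans (le_of_eq ?_)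
      norm_cast
    exact_mod_cast h3
  · -- the explicit criterion
    intro m n hmn h3
    obtain ⟨h4, h5⟩ := dimE_lt h3
    exact (hinj m).1 (explicit_criterion h (sub (tensorLeft Y ⋙ homF ℚ (𝟙_ C)) _ hst) hmn h4 h5)
  · -- nilpotence
    rintro k rfl
    have hN : Tendsto (fun n => ((dimE ℚ ((sub (tensorLeft Y ⋙ homF ℚ (𝟙_ C)) _ hst).obj
        (tp T n)) : ℕ∞) : ℝ≥0∞) / numRank ℚ (tp T n)) atTop (𝓝 ((k : ℕ) : ℝ≥0∞)) := by
      simpa using h1
    obtain ⟨hfin, -⟩ := isFin_of_lim h (sub (tensorLeft Y ⋙ homF ℚ (𝟙_ C)) _ hst) hN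
    obtain ⟨-, hstr⟩ := structure_thm h (sub (tensorLeft Y ⋙ homF ℚ (𝟙_ C)) _ hst) hN
    obtain ⟨i, r, hir⟩ := hY
    have hvan0 : ∀ (b : ℕ) (f : tp T 0 ⟶ tp T b), HomPow R T (k + 2) f → f = 0 := by
      rintro b f ⟨c, y, g, hy, ⟨d, z, g', hz, hg', rfl⟩, rfl⟩
      have h2 : R.H.map ((i ≫ (ρ_ Y).inv) ≫ (Y ◁ y)) = 0 := by
        rw [R.H.map_comp, map_whiskerLeft' hy, comp_zero]
      have h3 : (D.map (((i ≫ (ρ_ Y).inv) ≫ (Y ◁ y)) ≫ (Y ◁ z))).hom e = 0 :=
        hD.square _ _ h2 (map_whiskerLeft' hz Y)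
      have h4 := hstr d b g' (numPow_of_homPow h.real k hg')
      have h5 := sub_map_val hst g' ⟨((i ≫ (ρ_ Y).inv) ≫ (Y ◁ y)) ≫ (Y ◁ z), h3⟩
      rw [h4] at h5
      have h6 : (0 : 𝟙_ C ⟶ Y ⊗ tp T b) =
        (((i ≫ (ρ_ Y).inv) ≫ (Y ◁ y)) ≫ (Y ◁ z)) ≫ (Y ◁ g') := h5
      apply eq_zero_of_retract hir
      rw [MonoidalCategory.whiskerLeft_comp, MonoidalCategory.whiskerLeft_comp, ← Category.assoc,
        ← Category.assoc]
      exact h6.symm
    have hvan := homPow_vanish hvan0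
    exact ⟨fun n => hfin.fin n, hvan, kimura_of_nil h.real h.cplus fun n y hy =>
      ⟨k + 2, hvan n n _ (homPow_pow y hy (k + 2))⟩⟩

end Pool.Agent.K6.H7.AJ
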