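import Pool.Agent.K6.H7.AJ.Law

/-!
# The kernel of the Abel-Jacobi map on the products of a smooth variety with the powers of a variety

`C` is a rigid symmetric monoidal category with a realisation `R` (Chow motives with correspondences of
all codimensions and singular cohomology), `G` and `H` are additive functors on `C` (the Chow groups and
the absolute Hodge cohomology of `V × Z`, `V` a fixed smooth variety), `φ` a natural transformation (the
cycle class).
-/

set_option autoImplicit false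

open CategoryTheory Limits MonoidalCategory Module Filter Topology
open Pool.Agent.Y112.SR Pool.Agent.Y112.KD Pool.Agent.N64.AF
open scoped ENNReal

namespace Pool.Agent.K6.H7.AJ

universe v u w x

/-- Compositions of two homologically trivial correspondences act as zero on the functor `H`. -/
def SquareZero {C : Type u} [Category.{v} C] [Preadditive C] [MonoidalCategory C]
    [SymmetricCategory C] {K : Type w} [Field K] (R : SuperRealisation C K)
    (H : C ⥤ ModuleCat.{x} ℚ) : Prop :=
  ∀ ⦃Y Z S : C⦄ (y : Y ⟶ Z) (z : Z ⟶ S), R.H.map y = 0 → R.H.map z = 0 → H.map (y ≫ z) = 0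

/-- A morphism from the unit object which maps the element `u` to zero is zero. -/
def Faithful {C : Type u} [Category.{v} C] [Preadditive C] [MonoidalCategory C]
    (G : C ⥤ ModuleCat.{x} ℚ) (u : G.obj (𝟙_ C)) : Prop :=
  ∀ ⦃Z : C⦄ (f : 𝟙_ C ⟶ Z), (G.map f).hom u = 0 → f = 0

/-- **The law of the kernels of a cycle class.** -/
theorem open_law {C : Type u} [Category.{v} C] [Preadditive C] [MonoidalCategory C]
    [MonoidalPreadditive C] [SymmetricCategory C] [RightRigidCategory C]
    [Linear ℚ C] [MonoidalLinear ℚ C] [IsIdempotentComplete C]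
    {K : Type w} [Field K] [IsAlgClosed K] [Algebra ℚ K] {R : SuperRealisation C K}
    {G H : C ⥤ ModuleCat.{x} ℚ} [G.Additive] [G.Linear ℚ] [H.Additive] [H.Linear ℚ] (φ : G ⟶ H)
    (hH : SquareZero R H) (u : G.obj (𝟙_ C)) (hu : Faithful G u)
    {T : C} [ExactPairing T T] (h : IsPow ℚ R T) :
    ∃ N : ℕ∞,
      RatioTo ℚ T (fun n => kerDim φ (tp T n)) N ∧
      (N = 0 ↔ ∀ n, Function.Injective (φ.app (tp T n)).hom) ∧
      (∀ c : ℕ, (∃ᶠ n in atTop, kerDim φ (tp T n) ≤ c * numRank ℚ (tp T n)) → N ≤ c) ∧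
      (∀ m n : ℕ, 128 * (m + 1) ^ 2 * bt R T ^ (2 * m + 6) ≤ n →
        2 * kerDim φ (tp T n) < numRank ℚ (tp T n) → Function.Injective (φ.app (tp T m)).hom) ∧
      ∀ k : ℕ, N = k → (∀ n, Module.Finite ℚ (LinearMap.ker (φ.app (tp T n)).hom)) ∧
        (∀ (a b : ℕ) (f : tp T a ⟶ tp T b), HomPow R T (k + 2) f → f = 0) ∧
        Pool.Agent.R905.IsKimuraFinite T := by
  have hst : IsStab G (fun Z => LinearMap.ker (φ.app Z).hom) := ker_stab φ
  have hinj : ∀ n, (Subsingleton ((sub G _ hst).obj (tp T n)) ↔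
      Function.Injective (φ.app (tp T n)).hom) := by
    intro n
    rw [← LinearMap.ker_eq_bot]
    exact Submodule.subsingleton_iff_eq_bot
  obtain ⟨N, h1, h2, -⟩ := law h (sub G _ hst)
  refine ⟨N, h1, h2.trans (forall_congr' hinj), ?_, ?_, ?_⟩
  · -- the bound
    intro c hc
    have h3 : ((N : ℕ∞) : ℝ≥0∞) ≤ ((c : ℕ) : ℝ≥0∞) := by
      refine le_of_tendsto_of_frequently h1 ?_
      refine hc.mono fun n hn => ?_
      have h4 : (numRank ℚ (tp T n) : ℝ≥0∞) ≠ 0 := by
        exact_mod_cast (numRank_mono h n).1.ne'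
      rw [ENNReal.div_le_iff h4 (ENNReal.natCast_ne_top _)]
      have h6 : kerDim φ (tp T n) ≤ ((c * numRank ℚ (tp T n) : ℕ) : ℕ∞) := by
        exact_mod_cast hn
      have h5 : ((kerDim φ (tp T n) : ℕ∞) : ℝ≥0∞) ≤
          (((c * numRank ℚ (tp T n) : ℕ) : ℕ∞) : ℝ≥0∞) := by
        exact_mod_cast h6
      refine h5.trans (le_of_eq ?_)
      norm_cast
    exact_mod_cast h3
  · -- the explicit criterion
    intro m n hmn h3
    obtain ⟨h4, h5⟩ := dimE_lt h3
    exact (hinj m).1 (explicit_criterion h (sub G _ hst) hmn h4 h5)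
  · -- nilpotence
    rintro k rfl
    have hN : Tendsto (fun n => ((dimE ℚ ((sub G _ hst).obj (tp T n)) : ℕ∞) : ℝ≥0∞) /
        numRank ℚ (tp T n)) atTop (𝓝 ((k : ℕ) : ℝ≥0∞)) := by
      simpa using h1
    obtain ⟨hfin, -⟩ := isFin_of_lim h (sub G _ hst) hN
    obtain ⟨-, hstr⟩ := structure_thm h (sub G _ hst) hN
    have hvan0 : ∀ (b : ℕ) (f : tp T 0 ⟶ tp T b), HomPow R T (k + 2) f → f = 0 := by
      rintro b f ⟨c, y, g, hy, ⟨d, z, g', hz, hg', rfl⟩, rfl⟩
      have h3 : (φ.app (tp T d)).hom ((G.map (y ≫ z)).hom u) = 0 := by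
        have h0 := congrArg (fun q : G.obj (tp T 0) ⟶ H.obj (tp T d) => q.hom u)
          (φ.naturality (y ≫ z))
        have h0' : (φ.app (tp T d)).hom ((G.map (y ≫ z)).hom u) =
          (H.map (y ≫ z)).hom ((φ.app (tp T 0)).hom u) := h0
        rw [h0', hH y z hy hz]
        rfl
      have h4 := hstr d b g' (numPow_of_homPow h.real k hg')
      have h5 := sub_map_val hst g' ⟨(G.map (y ≫ z)).hom u, h3⟩
      rw [h4] at h5
      have h6 : (0 : G.obj (tp T b)) = (G.map g').hom ((G.map (y ≫ z)).hom u) := h5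
      refine hu _ ?_
      rw [← Category.assoc, G.map_comp, ModuleCat.hom_comp, LinearMap.comp_apply]
      exact h6.symm
    have hvan := homPow_vanish hvan0
    exact ⟨fun n => hfin.fin n, hvan, kimura_of_nil h.real h.cplus fun n y hy =>
      ⟨k + 2, hvan n n _ (homPow_pow y hy (k + 2))⟩⟩

end Pool.Agent.K6.H7.AJ
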